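import Pool.Agent.T6.H40.MT.Main

/-!
# No point other than a Cartan point has a jet identification number, `n ≥ 3`

The Monster tower over `ℂ^n` in affine charts: `Coord`, `InChart`, `frame`, `IsProlongation`,
`fiberThrough`, `prolong`, `criticalSubmanifolds`, `IsRegularVector`, `Germ` are defined in
`Pool.Agent.R861.MT.Defs`. A point of `𝒫^k(n)` is given by a word `i 1, …, i k` in `1, …, n` and
its coordinates `p = (z 0, …, z k)`, `z j ∈ ℂ^n`, `(z j) (i j) = 1` for `j ≥ 1`; these charts cover
`𝒫^k(n)`. `IsCurveGerm`, `IsLocalBiholo`, `JetRep`, `HasJetIdentificationNumber` and `IsCartan`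
are defined in `Pool.Agent.T6.H40.MT.JetDefs`.

Idea of the proof. Let `m_j - 1` be the order of the velocity of the `j`-th prolongation of a curve
in `Germ(p)`; it depends only on `p`, and `m_0 > 1` if `p` is not a Cartan point. Let `J + 1` be the
first level with `m_{J+1} < m_0` and let `B = 1 + m_{J+2} + ⋯ + m_{k-1}`. Any two curves in `Germ(p)`
have, after a change of parameter, velocities at the level `J + 1` which agree up to order `B`
(`contact_all`). Hence, if `n ≥ 3`, then a jet identification number `r` satisfies
`r ≥ B + (J + 1) m_0` (`beta`): otherwise we may add `ε t^B` in a third direction at the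
level `J + 1` without leaving `Germ(p)`. On the other hand, the velocity at the level `J + 1` of a
curve in `Germ(p)` may be multiplied by a function close to `1` with the direction unchanged, and
this gives a curve in `Germ(p)` which shows that `r < B + (J + 1) m_0` (`alpha`).
-/

set_option autoImplicit false

namespace Pool.Agent.Results.MP_0d30b1_gt.NoJetIdentificationNumber

open Pool.Agent.R861.MT Pool.Agent.T6.H40.MT

/-- **Main theorem.** Let `n ≥ 3` and let `p` be a point of `𝒫^k(n)`, given by its coordinates in
the chart with the word `i`. If `p` is not a Cartan point, then `p` has no jet identification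
number: for every `r` and every `r`-jet `β`, the set `Germ(p)` is not the set of the curve germs `γ`
with `j^r γ =_{rep} β`. -/
theorem result (n k : ℕ) (hn : 3 ≤ n) (i : ℕ → Fin n) (p : Coord n k) (hp : InChart i p)
    (hC : ¬ IsCartan i p) (r : ℕ) : ¬ HasJetIdentificationNumber i p r :=
  main hn i p hp hC r

end Pool.Agent.Results.MP_0d30b1_gt.NoJetIdentificationNumber
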